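import Pool.Agent.Run7.h929.G3.Defs

/-!
# The discriminant of a quintic as a polynomial in the constant coefficient
-/

set_option autoImplicit false

namespace Run7.h465.GT

open Polynomial Run7.h929.G2 Run7.h929.G3

variable {R : Type} [CommRing R] {S : Type} [CommRing S]

theorem DP_map (φ : R →+* S) (a : Fin 5 → R) : (DP a).map φ = DP (fun i => φ (a i)) := by
  unfold DP
  have h := map_dis (mapRingHom φ) (![X, C (a 1), C (a 2), C (a 3), C (a 4)] : Fin 5 → R[X])
  rw [coe_mapRingHom] at h
  rw [h]
  congr 1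
  funext i
  fin_cases i <;> simp

theorem DP_eval (a : Fin 5 → R) (x : R) : (DP a).eval x = dis ![x, a 1, a 2, a 3, a 4] := by
  unfold DP
  have h := map_dis (evalRingHom x) (![X, C (a 1), C (a 2), C (a 3), C (a 4)] : Fin 5 → R[X])
  rw [coe_evalRingHom] at h
  rw [h]
  congr 1
  funext i
  fin_cases i <;> simp

theorem DP_eval0 (a : Fin 5 → R) : (DP a).eval (a 0) = dis a := by
  rw [DP_eval]
  congr 1
  funext i
  fin_cases i <;> rfl

theorem deriv_eq (a : Fin 5 → R) : derivative (quin a) =
    C 5 * X ^ 4 + C (4 * a 4) * X ^ 3 + C (3 * a 3) * X ^ 2 + C (2 * a 2) * X + C (a 1) := by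
  simp only [quin, derivative_add, derivative_mul, derivative_C, derivative_X_pow, derivative_X,
    zero_mul, zero_add, mul_one, C_mul, add_zero]
  norm_num
  ring_nf

theorem natDegree_deriv [Nontrivial R] (h5 : (5 : R) ≠ 0) (a : Fin 5 → R) :
    (derivative (quin a)).natDegree = 4 := by
  rw [deriv_eq]
  compute_degree!

theorem leadingCoeff_deriv [Nontrivial R] (h5 : (5 : R) ≠ 0) (a : Fin 5 → R) :
    (derivative (quin a)).leadingCoeff = 5 := by
  rw [leadingCoeff, natDegree_deriv h5, deriv_eq]
  have e1 : (C (4 * a 4) * X ^ 3).coeff 4 = 0 := by rw [coeff_C_mul, coeff_X_pow]; simp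
  have e2 : (C (3 * a 3) * X ^ 2).coeff 4 = 0 := by rw [coeff_C_mul, coeff_X_pow]; simp
  have e3 : (C (2 * a 2) * X).coeff 4 = 0 := by rw [coeff_C_mul, coeff_X]; simp
  have e4 : (C (5 : R) * X ^ 4).coeff 4 = 5 := by rw [coeff_C_mul, coeff_X_pow]; simp
  have e5 : (C (a 1)).coeff 4 = 0 := by rw [coeff_C]; simp
  rw [coeff_add, coeff_add, coeff_add, coeff_add, e1, e2, e3, e4, e5]
  simp

theorem quin_DPv (a : Fin 5 → R) :
    quin (![X, C (a 1), C (a 2), C (a 3), C (a 4)] : Fin 5 → R[X]) =
      (quin a).map C + C (X - C (a 0)) := by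
  rw [map_quin]
  unfold quin
  simp only [Matrix.cons_val_zero, Matrix.cons_val_one, Matrix.cons_val, C_sub]
  ring

theorem deriv_DPv (a : Fin 5 → R) :
    derivative (quin (![X, C (a 1), C (a 2), C (a 3), C (a 4)] : Fin 5 → R[X])) =
      (derivative (quin a)).map C := by
  rw [quin_DPv, derivative_add, derivative_C, add_zero, derivative_map]

theorem eval_DPv (a : Fin 5 → R) (β : R) :
    eval (C β) (quin (![X, C (a 1), C (a 2), C (a 3), C (a 4)] : Fin 5 → R[X])) =
      X + C (fv a β - a 0) := by
  rw [quin_DPv, eval_add, eval_C, eval_map, eval₂_hom, eval_quin]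
  simp only [C_sub]
  ring

theorem five_ne {R : Type} [CommRing R] (h5 : (5 : R) ≠ 0) : (5 : R[X]) ≠ 0 := by
  intro h
  apply h5
  have := congrArg (coeff · 0) h
  simpa using this

theorem res_prod {K : Type} [Field K] [IsAlgClosed K] (h5 : (5 : K) ≠ 0) (a : Fin 5 → K)
    (g : K[X][X]) (hg : g.natDegree ≤ 5) :
    resultant ((derivative (quin a)).map (C : K →+* K[X])) g 4 5 = C (5 : K) ^ 5 *
      (((derivative (quin a)).roots).map (fun β => eval (C β) g)).prod := by
  have hs : (derivative (quin a)).Splits := IsAlgClosed.splits _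
  have hs' : ((derivative (quin a)).map (C : K →+* K[X])).Splits := hs.map C
  have hn := natDegree_deriv h5 a
  have hn' : ((derivative (quin a)).map (C : K →+* K[X])).natDegree = 4 := by
    rw [natDegree_map_eq_of_injective C_injective, hn]
  have hl : ((derivative (quin a)).map (C : K →+* K[X])).leadingCoeff = C 5 := by
    rw [leadingCoeff_map_of_injective C_injective, leadingCoeff_deriv h5]
  have h := resultant_eq_prod_eval ((derivative (quin a)).map (C : K →+* K[X])) g 5 hg hs'
  rw [hn', hl, hs.roots_map_of_injective C_injective, Multiset.map_map] at h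
  exact h

theorem res_comm54 (f g : R[X]) : resultant f g 5 4 = resultant g f 4 5 := by
  rw [resultant_comm, Even.neg_one_pow (by decide), one_mul]

theorem DP_res (a : Fin 5 → R) :
    DP a = resultant ((derivative (quin a)).map (C : R →+* R[X]))
      (quin (![X, C (a 1), C (a 2), C (a 3), C (a 4)] : Fin 5 → R[X])) 4 5 := by
  rw [← deriv_DPv]
  exact res_comm54 _ _

theorem DP_prod {K : Type} [Field K] [IsAlgClosed K] (h5 : (5 : K) ≠ 0) (a : Fin 5 → K) :
    DP a = C ((5 : K) ^ 5) *
      (((derivative (quin a)).roots).map (fun β => X + C (fv a β - a 0))).prod := by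
  rw [DP_res, res_prod h5 a _ (natDegree_quin _).le, C_pow]
  refine congrArg (fun m : Multiset K[X] => C (5 : K) ^ 5 * m.prod) ?_
  apply Multiset.map_congr rfl
  intro β _
  rw [eval_DPv]

theorem DP_lead {K : Type} [Field K] [IsAlgClosed K] (h5 : (5 : K) ≠ 0) (a : Fin 5 → K) :
    (DP a).natDegree = 4 ∧ (DP a).leadingCoeff = 3125 := by
  have h3 : (5 : K) ^ 5 ≠ 0 := pow_ne_zero _ h5
  have hm : ∀ f ∈ ((derivative (quin a)).roots).map (fun β => X + C (fv a β - a 0)), Monic f := by
    intro f hf
    rw [Multiset.mem_map] at hf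
    obtain ⟨β, _, rfl⟩ := hf
    exact monic_X_add_C _
  have hM := monic_multiset_prod_of_monic (derivative (quin a)).roots
    (fun β => X + C (fv a β - a 0)) (fun β _ => monic_X_add_C (R := K) (fv a β - a 0))
  have hs : (derivative (quin a)).Splits := IsAlgClosed.splits _
  have hc := hs.natDegree_eq_card_roots
  rw [natDegree_deriv h5] at hc
  rw [DP_prod h5]
  constructor
  · rw [natDegree_C_mul h3, natDegree_multiset_prod_of_monic _ hm, Multiset.map_map,
      Multiset.map_congr rfl (g := fun _ => 1) (fun β _ => by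
        rw [Function.comp_apply, natDegree_X_add_C])]
    simp [hc]
  · rw [leadingCoeff_mul, leadingCoeff_C, hM.leadingCoeff, mul_one]
    norm_num

theorem DP_lead_of_inj {K : Type} [Field K] [IsAlgClosed K] (h5 : (5 : K) ≠ 0) (φ : R →+* K)
    (hφ : Function.Injective φ) (a : Fin 5 → R) :
    (DP a).natDegree = 4 ∧ (DP a).leadingCoeff = 3125 := by
  have h := DP_lead h5 (fun i => φ (a i))
  rw [← DP_map] at h
  rw [natDegree_map_eq_of_injective hφ, leadingCoeff_map_of_injective hφ] at h
  refine ⟨h.1, hφ ?_⟩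
  rw [h.2, map_ofNat]

end Run7.h465.GT
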