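import Pool.Agent.Run7.h929.G3.Iface
import Pool.Agent.Run7.h465.GT.DP

/-!
# Piece D1: the discriminant has degree four in the constant coefficient
-/

set_option autoImplicit false

namespace Run7.h465.GT

open Polynomial Run7.h929.G2 Run7.h929.G3

theorem D1 : S_D1 := by
  intro a
  have h := DP_lead_of_inj (K := ℂ) (by norm_num) (Int.castRingHom ℂ)
    (RingHom.injective_int _) a
  exact ⟨h.1, h.2, DP_eval0 a⟩

end Run7.h465.GT
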