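import Pool.Agent.Run7.h465.GT.D3

/-!
# Piece D2: elimination of the constant coefficient
-/

set_option autoImplicit false

namespace Run7.h465.GT

open Polynomial Run7.h929.G2 Run7.h929.G3 Filter Topology

theorem dis_e1 (x : ℝ) : dis (![x, 1, 0, 0, 0] : Fin 5 → ℝ) = 3125 * x ^ 4 + 256 := by
  unfold dis
  have hd : derivative (quin (![x, 1, 0, 0, 0] : Fin 5 → ℝ)) = C 5 * X ^ 4 + C 1 := by
    rw [deriv_eq]
    simp
  have hdn : (C 5 * X ^ 4 + C 1 : ℝ[X]).natDegree ≤ 4 := by compute_degree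
  have hq : quin (![x, 1, 0, 0, 0] : Fin 5 → ℝ) =
      C (4 / 5) * (X + C (5 / 4 * x)) + (C 5 * X ^ 4 + C 1) * (C (1 / 5) * X) := by
    unfold quin
    simp only [Matrix.cons_val_zero, Matrix.cons_val_one, Matrix.cons_val, C_0, C_1, zero_mul,
      add_zero]
    have e1 : (C (4 / 5) * C (5 / 4 * x) : ℝ[X]) = C x := by
      rw [← C_mul]
      congr 1
      ring
    have e2 : (C 5 * C (1 / 5) : ℝ[X]) = 1 := by
      rw [← C_mul]
      norm_num
    have e3 : (C (4 / 5) + C (1 / 5) : ℝ[X]) = 1 := by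
      rw [← C_add]
      norm_num
    linear_combination (-1 : ℝ[X]) * e1 - X ^ 5 * e2 - X * e3
  have hpn : (C (1 / 5) * X : ℝ[X]).natDegree + 4 ≤ 5 := by
    have : (C (1 / 5) * X : ℝ[X]).natDegree ≤ 1 := by compute_degree
    omega
  have hln : (C (4 / 5) * (X + C (5 / 4 * x)) : ℝ[X]).natDegree ≤ 1 := by compute_degree
  rw [hd, hq, resultant_add_mul_left _ _ _ _ _ hpn hdn]
  rw [show (5 : ℕ) = 1 + 4 from rfl, resultant_add_left_deg _ _ _ _ _ hln,
    resultant_C_mul_left, resultant_X_add_C_left _ _ _ hdn]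
  simp [coeff_one]
  ring

theorem DP_e1 : DP (![0, 1, 0, 0, 0] : Fin 5 → ℝ) = C 3125 * X ^ 4 + C 256 := by
  apply Polynomial.funext
  intro x
  rw [DP_eval]
  have h : (![x, (![0, 1, 0, 0, 0] : Fin 5 → ℝ) 1, (![0, 1, 0, 0, 0] : Fin 5 → ℝ) 2,
      (![0, 1, 0, 0, 0] : Fin 5 → ℝ) 3, (![0, 1, 0, 0, 0] : Fin 5 → ℝ) 4] : Fin 5 → ℝ) =
      ![x, 1, 0, 0, 0] := by
    simp
  rw [h, dis_e1]
  simp

theorem FF_e1 : FF (![0, 1, 0, 0, 0] : Fin 5 → ℝ) = 12500 ^ 4 * 256 ^ 3 := by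
  unfold FF
  rw [DP_e1]
  have h : derivative (C (3125 : ℝ) * X ^ 4 + C 256) = C 12500 * X ^ 3 := by
    simp only [derivative_add, derivative_mul, derivative_C, derivative_X_pow, zero_mul, zero_add,
      add_zero]
    rw [← mul_assoc, Nat.cast_ofNat, ← C_mul]
    norm_num
  rw [h, resultant_C_mul_right, resultant_X_pow_right _ _ _ (by compute_degree)]
  have h0 : (C (3125 : ℝ) * X ^ 4 + C 256).coeff 0 = 256 := by simp
  rw [h0]
  norm_num

/-- the eliminant as a polynomial in the coefficient `a 1` -/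
noncomputable def EE (a : Fin 5 → ℤ) : ℤ[X] := FF ![0, X, C (a 2), C (a 3), C (a 4)]

theorem EE_eval (a : Fin 5 → ℤ) (x : ℤ) : (EE a).eval x = FF ![0, x, a 2, a 3, a 4] := by
  unfold EE
  have h := FF_map (evalRingHom x) (![0, X, C (a 2), C (a 3), C (a 4)] : Fin 5 → ℤ[X])
  rw [coe_evalRingHom] at h
  rw [h]
  congr 1
  funext i
  fin_cases i <;> simp

theorem EE_eval_real (a : Fin 5 → ℤ) (x : ℝ) : ((EE a).map (Int.castRingHom ℝ)).eval x =
    FF ![0, x, (a 2 : ℝ), (a 3 : ℝ), (a 4 : ℝ)] := by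
  unfold EE
  have h := FF_map (eval₂RingHom (Int.castRingHom ℝ) x)
    (![0, X, C (a 2), C (a 3), C (a 4)] : Fin 5 → ℤ[X])
  rw [coe_eval₂RingHom] at h
  rw [eval_map, h]
  congr 1
  funext i
  fin_cases i
  · exact eval₂_zero _ _
  · exact eval₂_X _ _
  · exact eval₂_C _ _
  · exact eval₂_C _ _
  · exact eval₂_C _ _

theorem EE_scale (a : Fin 5 → ℤ) (r : ℝ) (hr : r ≠ 0) :
    ((EE a).map (Int.castRingHom ℝ)).eval (r ^ 4) =
      r ^ 60 * FF ![0, 1, (a 2 : ℝ) * (r⁻¹) ^ 3, (a 3 : ℝ) * (r⁻¹) ^ 2, (a 4 : ℝ) * r⁻¹] := by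
  rw [EE_eval_real, ← FF_sc_real r hr]
  congr 1
  funext i
  fin_cases i
  · simp [sc]
  · simp [sc]
  · simp [sc]
    field_simp
  · simp [sc]
    field_simp
  · simp [sc]
    field_simp

theorem EE_lim (a : Fin 5 → ℤ) : Tendsto (fun r : ℝ =>
    ((EE a).map (Int.castRingHom ℝ)).eval (r ^ 4) / (X ^ 15 : ℝ[X]).eval (r ^ 4)) atTop
    (𝓝 (12500 ^ 4 * 256 ^ 3)) := by
  have h1 : Tendsto (fun r : ℝ => (![0, 1, (a 2 : ℝ) * (r⁻¹) ^ 3, (a 3 : ℝ) * (r⁻¹) ^ 2,
      (a 4 : ℝ) * r⁻¹] : Fin 5 → ℝ)) atTop (𝓝 ![0, 1, 0, 0, 0]) := by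
    have h0 : Tendsto (fun r : ℝ => r⁻¹) atTop (𝓝 0) := tendsto_inv_atTop_zero
    rw [tendsto_pi_nhds]
    intro i
    fin_cases i
    · simp
    · simp
    · simpa using (h0.pow 3).const_mul (a 2 : ℝ)
    · simpa using (h0.pow 2).const_mul (a 3 : ℝ)
    · simpa using h0.const_mul (a 4 : ℝ)
  have h2 := (FF_cont.tendsto _).comp h1
  rw [FF_e1] at h2
  refine h2.congr' ?_
  filter_upwards [eventually_gt_atTop 0] with r hr
  rw [EE_scale a r hr.ne', Function.comp_apply, eval_pow, eval_X, ← pow_mul]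
  rw [mul_div_cancel_left₀ _ (pow_ne_zero _ hr.ne')]

theorem EE_deg (a : Fin 5 → ℤ) :
    (EE a).natDegree = 15 ∧ (((EE a).leadingCoeff : ℤ) : ℝ) = 12500 ^ 4 * 256 ^ 3 := by
  have hinj : Function.Injective (Int.castRingHom ℝ) := RingHom.injective_int _
  have hn := natDegree_map_eq_of_injective hinj (EE a)
  have hl := leadingCoeff_map_of_injective hinj (EE a)
  set P := (EE a).map (Int.castRingHom ℝ) with hP
  have h4 : Tendsto (fun r : ℝ => r ^ 4) atTop atTop := tendsto_pow_atTop (by norm_num)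
  have hlim := EE_lim a
  rw [← hP] at hlim
  have hc : (12500 ^ 4 * 256 ^ 3 : ℝ) ≠ 0 := by norm_num
  have hd : (X ^ 15 : ℝ[X]).degree = 15 := degree_X_pow 15
  rcases lt_trichotomy P.degree (X ^ 15 : ℝ[X]).degree with h | h | h
  · have := (div_tendsto_atTop_zero_of_degree_lt P (X ^ 15) h).comp h4
    exact absurd (tendsto_nhds_unique hlim this) hc
  · have h1 := (div_tendsto_atTop_leadingCoeff_div_of_degree_eq P (X ^ 15) h).comp h4
    have h2 := tendsto_nhds_unique hlim h1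
    rw [leadingCoeff_X_pow, div_one] at h2
    rw [hd] at h
    refine ⟨?_, ?_⟩
    · rw [← hn]
      exact natDegree_eq_of_degree_eq_some h
    · rw [h2, hl]
      rfl
  · have h1 := (abs_div_tendsto_atTop_atTop_of_degree_gt P (X ^ 15) h
      (pow_ne_zero _ X_ne_zero)).comp h4
    exact absurd hlim.abs (not_tendsto_nhds_of_tendsto_atTop h1 _)

theorem res_dvd (P : ℤ[X]) (h4 : P.natDegree = 4) (x m : ℤ) (h1 : m ∣ P.eval x)
    (h2 : m ∣ (derivative P).eval x) : m ∣ resultant P (derivative P) 4 3 := by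
  obtain ⟨p, q, -, -, h⟩ := exists_mul_add_mul_eq_C_resultant (m := 4) (n := 3) P
    (derivative P) h4.le (natDegree_deriv4 _ h4).le (by norm_num)
  have h3 := congrArg (eval x) h
  rw [eval_add, eval_mul, eval_mul, eval_C] at h3
  rw [← h3]
  exact dvd_add (h1.mul_right _) (h2.mul_right _)

theorem FF_dvd (b : Fin 5 → ℤ) (m : ℤ) (h1 : m ∣ dis b) (h2 : m ∣ dis0 b) : m ∣ FF b := by
  rw [← DP_eval0] at h1
  exact res_dvd (DP b) (DP_lead_of_inj (K := ℂ) (by norm_num) (Int.castRingHom ℂ)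
      (RingHom.injective_int _) b).1 (b 0) m h1 h2

theorem D2 : S_D2 := by
  obtain ⟨A, hA1, hA⟩ := box_bound (fun b => FF b) FF_cont 60 FF_sc_real
  refine ⟨12500 ^ 4 * 256 ^ 3, A, by norm_num, hA1, fun a => ⟨EE a, (EE_deg a).1, ?_, ?_⟩⟩
  · exact_mod_cast (EE_deg a).2
  · intro b h2 h3 h4
    have h : (EE a).eval (b 1) = FF b := by
      rw [EE_eval, ← h2, ← h3, ← h4]
      unfold FF
      rw [DP_congr ![0, b 1, b 2, b 3, b 4] b rfl rfl rfl rfl]
    rw [h]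
    refine ⟨fun m => FF_dvd b m, fun B hB hb => ?_⟩
    have h5 := hA B b hB hb
    have h6 : ((FF b : ℤ) : ℝ) = FF (fun i => (b i : ℝ)) := FF_map (Int.castRingHom ℝ) b
    rw [h6]
    exact h5

end Run7.h465.GT
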