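import Pool.Agent.Run7.h465.GT.DP

/-!
# Homogeneity of the discriminant and of its eliminant
-/

set_option autoImplicit false

namespace Run7.h465.GT

open Polynomial Run7.h929.G2 Run7.h929.G3

variable {R : Type} [CommRing R] {S : Type} [CommRing S]

/-- scaling of the coefficients -/
def sc (r : R) (a : Fin 5 → R) : Fin 5 → R := fun i => r ^ (5 - (i : ℕ)) * a i

theorem coeff_quin (a : Fin 5 → R) (i : ℕ) : (quin a).coeff i =
    if h : i < 5 then a ⟨i, h⟩ else if i = 5 then 1 else 0 := by
  unfold quin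
  simp only [coeff_add, coeff_X_pow, coeff_C_mul, coeff_C, coeff_X]
  by_cases h : i < 5
  · rw [dif_pos h]
    interval_cases i <;> simp
  · rw [dif_neg h]
    by_cases h5 : i = 5
    · subst h5
      simp
    · rw [if_neg h5, if_neg (by omega), if_neg (by omega), if_neg (by omega),
        if_neg (by omega), if_neg (by omega)]
      simp

theorem quin_sc [Nontrivial R] (r : R) (a : Fin 5 → R) :
    quin (sc r a) = (quin a).scaleRoots r := by
  ext i
  rw [coeff_scaleRoots, natDegree_quin, coeff_quin, coeff_quin]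
  by_cases h : i < 5
  · rw [dif_pos h, dif_pos h]
    simp only [sc]
    ring
  · rw [dif_neg h, dif_neg h]
    by_cases h5 : i = 5
    · subst h5
      simp
    · simp [h5]

theorem deriv_scaleRoots (p : R[X]) (n : ℕ) (hp : p.natDegree = n + 1)
    (hd : (derivative p).natDegree = n) (r : R) :
    derivative (p.scaleRoots r) = (derivative p).scaleRoots r := by
  ext i
  rw [coeff_scaleRoots, coeff_derivative, coeff_derivative, coeff_scaleRoots, hp, hd,
    Nat.add_sub_add_right]
  ring

theorem dis_sc [Nontrivial R] (r : R) (a : Fin 5 → R)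
    (hd : (derivative (quin a)).natDegree = 4) : dis (sc r a) = r ^ 20 * dis a := by
  unfold dis
  rw [quin_sc, deriv_scaleRoots (quin a) 4 (natDegree_quin a) hd]
  have h := resultant_scaleRoots (quin a) (derivative (quin a)) r
  rw [natDegree_scaleRoots, natDegree_scaleRoots, natDegree_quin, hd] at h
  exact h

/-- the eliminant -/
noncomputable def FF (a : Fin 5 → R) : R := resultant (DP a) (derivative (DP a)) 4 3

theorem FF_map (φ : R →+* S) (a : Fin 5 → R) : φ (FF a) = FF (fun i => φ (a i)) := by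
  unfold FF
  rw [← DP_map, derivative_map, resultant_map_map]

theorem DP_congr (a b : Fin 5 → R) (h1 : a 1 = b 1) (h2 : a 2 = b 2) (h3 : a 3 = b 3)
    (h4 : a 4 = b 4) : DP a = DP b := by
  unfold DP
  rw [h1, h2, h3, h4]

theorem dis_comp (V : Fin 5 → R[X]) (q : R[X]) :
    (dis V).comp q = dis (fun i => (V i).comp q) := by
  have h := map_dis (compRingHom q) V
  simpa only [coe_compRingHom_apply] using h

theorem vec_comp (r : R) (a : Fin 5 → R) :
    (fun i => ((![X, C (sc r a 1), C (sc r a 2), C (sc r a 3), C (sc r a 4)] :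
      Fin 5 → R[X]) i).comp (C (r ^ 5) * X)) =
      sc (C r) (![X, C (a 1), C (a 2), C (a 3), C (a 4)] : Fin 5 → R[X]) := by
  funext i
  fin_cases i <;> simp [sc]

theorem natDegree_DPv [Nontrivial R] (h5 : (5 : R) ≠ 0) (a : Fin 5 → R) :
    (derivative (quin (![X, C (a 1), C (a 2), C (a 3), C (a 4)] : Fin 5 → R[X]))).natDegree
      = 4 := by
  rw [deriv_DPv, natDegree_map_eq_of_injective C_injective, natDegree_deriv h5]

/-- `x = y z`; the kernel should not compare products of polynomials given by large terms -/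
def MM (R : Type) [CommRing R] (x y z : R) : Prop := x = y * z

/-- `x = y ^ n` -/
def MP (R : Type) [CommRing R] (x y : R) (n : ℕ) : Prop := x = y ^ n

theorem MM_iff (x y z : R[X]) : MM R[X] x y z ↔ x = y * z := Iff.rfl

theorem MP_iff (x y : R[X]) (n : ℕ) : MP R[X] x y n ↔ x = y ^ n := Iff.rfl

theorem dis_scM [Nontrivial R] (r s : R) (a : Fin 5 → R) (hs : MP R s r 20)
    (hd : (derivative (quin a)).natDegree = 4) : MM R (dis (sc r a)) s (dis a) := by
  unfold MM
  rw [dis_sc r a hd, hs]

theorem DP_comp [Nontrivial R] (h5 : (5 : R) ≠ 0) (r : R) (a : Fin 5 → R) (P Q : R[X])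
    (hP : DP (sc r a) = P) (hQ : DP a = Q) :
    P.comp (C (r ^ 5) * X) = C (r ^ 20) * Q := by
  have h1 := dis_comp (![X, C (sc r a 1), C (sc r a 2), C (sc r a 3), C (sc r a 4)] :
      Fin 5 → R[X]) (C (r ^ 5) * X)
  have h2 := h1.trans (congrArg dis (vec_comp r a))
  have h3 : MP R[X] (C (r ^ 20)) (C r) 20 := (MP_iff _ _ _).mpr C_pow
  have h4 := dis_scM (C r) (C (r ^ 20))
    (![X, C (a 1), C (a 2), C (a 3), C (a 4)] : Fin 5 → R[X]) h3 (natDegree_DPv h5 a)
  unfold DP at hP hQ
  rw [hQ] at h4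
  rw [hP] at h2
  rw [h2]
  exact (MM_iff _ _ _).mp h4

theorem DP_sc [IsDomain R] (h5 : (5 : R) ≠ 0) (r : R) (hr : r ≠ 0) (a : Fin 5 → R) (P Q : R[X])
    (hP : DP (sc r a) = P) (hQ : DP a = Q)
    (h4 : Q.natDegree = 4) (h4' : P.natDegree = 4) :
    P = Q.scaleRoots (r ^ 5) := by
  have h := DP_comp h5 r a P Q hP hQ
  ext i
  rw [coeff_scaleRoots, h4]
  by_cases hi : i ≤ 4
  · have h1 := congrArg (coeff · i) h
    simp only [comp_C_mul_X_coeff, coeff_C_mul] at h1
    have h2 : (r ^ 5) ^ i ≠ 0 := pow_ne_zero _ (pow_ne_zero _ hr)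
    apply mul_right_cancel₀ h2
    rw [h1, mul_assoc, ← pow_add, Nat.sub_add_cancel hi, ← pow_mul]
    ring
  · rw [coeff_eq_zero_of_natDegree_lt (by omega), coeff_eq_zero_of_natDegree_lt (by omega),
      zero_mul]

theorem natDegree_deriv4 [IsDomain R] [CharZero R] (P : R[X]) (h : P.natDegree = 4) :
    (derivative P).natDegree = 3 := by
  rw [natDegree_derivative, h]

theorem FF_sc [IsDomain R] [CharZero R] (r : R) (hr : r ≠ 0) (a : Fin 5 → R)
    (h4 : ∀ a : Fin 5 → R, (DP a).natDegree = 4) :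
    FF (sc r a) = r ^ 60 * FF a := by
  unfold FF
  rw [DP_sc (by norm_num) r hr a _ _ rfl rfl (h4 a) (h4 _),
    deriv_scaleRoots (DP a) 3 (h4 a) (natDegree_deriv4 _ (h4 a))]
  have h := resultant_scaleRoots (DP a) (derivative (DP a)) (r ^ 5)
  rw [natDegree_scaleRoots, natDegree_scaleRoots, h4, natDegree_deriv4 _ (h4 a), ← pow_mul] at h
  exact h

end Run7.h465.GT
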