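import Pool.Agent.Run7.h929.G3.Iface
import Pool.Agent.Run7.h465.GT.Scale

/-!
# Piece D3: the size of the discriminant on a box
-/

set_option autoImplicit false

namespace Run7.h465.GT

open Polynomial Run7.h929.G2 Run7.h929.G3

theorem dis_cont : Continuous (fun b : Fin 5 → ℝ => dis b) := by
  have h : (fun b : Fin 5 → ℝ => dis b) = fun b => MvPolynomial.eval b
      (dis (fun i : Fin 5 => (MvPolynomial.X i : MvPolynomial (Fin 5) ℝ))) := by
    funext b
    rw [map_dis]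
    congr 1
    funext i
    simp
  rw [h]
  exact MvPolynomial.continuous_eval _

theorem FF_cont : Continuous (fun b : Fin 5 → ℝ => FF b) := by
  have h : (fun b : Fin 5 → ℝ => FF b) = fun b => MvPolynomial.eval b
      (FF (fun i : Fin 5 => (MvPolynomial.X i : MvPolynomial (Fin 5) ℝ))) := by
    funext b
    rw [FF_map]
    congr 1
    funext i
    simp
  rw [h]
  exact MvPolynomial.continuous_eval _

/-- a continuous function is bounded on the cube -/
theorem cube_bound (G : (Fin 5 → ℝ) → ℝ) (hG : Continuous G) :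
    ∃ A : ℝ, 1 ≤ A ∧ ∀ b : Fin 5 → ℝ, (∀ i, |b i| ≤ 1) → |G b| ≤ A := by
  obtain ⟨A, hA⟩ := (isCompact_Icc (a := fun _ : Fin 5 => (-1 : ℝ))
    (b := fun _ => 1)).exists_bound_of_continuousOn hG.continuousOn
  refine ⟨max A 1, le_max_right _ _, fun b hb => (hA b ⟨fun i => ?_, fun i => ?_⟩).trans
    (le_max_left _ _)⟩
  · exact (abs_le.mp (hb i)).1
  · exact (abs_le.mp (hb i)).2

/-- a homogeneous continuous function on a box -/
theorem box_bound (G : (Fin 5 → ℝ) → ℝ) (hG : Continuous G) (n : ℕ)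
    (hs : ∀ (r : ℝ), r ≠ 0 → ∀ b, G (sc r b) = r ^ n * G b) :
    ∃ A : ℝ, 1 ≤ A ∧ ∀ (B : ℕ) (a : Fin 5 → ℤ), 1 ≤ B → a ∈ Box B →
      |G (fun i => (a i : ℝ))| ≤ A * B ^ n := by
  obtain ⟨A, hA1, hA⟩ := cube_bound G hG
  refine ⟨A, hA1, fun B a hB ha => ?_⟩
  have hB0 : (0 : ℝ) < B := by exact_mod_cast hB
  have h1 : (fun i => (a i : ℝ)) = sc (B : ℝ) (fun i => (a i : ℝ) / (B : ℝ) ^ (5 - (i : ℕ))) := by
    funext i
    unfold sc
    rw [mul_div_cancel₀]
    exact (pow_pos hB0 _).ne'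
  rw [h1, hs _ hB0.ne', abs_mul, abs_of_pos (pow_pos hB0 n), mul_comm]
  refine mul_le_mul_of_nonneg_right (hA _ fun i => ?_) (pow_pos hB0 n).le
  unfold Box at ha
  rw [Fintype.mem_piFinset] at ha
  have h2 := Finset.mem_Icc.mp (ha i)
  rw [abs_div, abs_of_pos (pow_pos hB0 (5 - (i : ℕ))), div_le_one (pow_pos hB0 _), abs_le]
  constructor
  · exact_mod_cast h2.1
  · exact_mod_cast h2.2

theorem natDegree_DP_real (a : Fin 5 → ℝ) : (DP a).natDegree = 4 :=
  (DP_lead_of_inj (K := ℂ) (by norm_num) (algebraMap ℝ ℂ) (algebraMap ℝ ℂ).injective a).1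

theorem FF_sc_real (r : ℝ) (hr : r ≠ 0) (a : Fin 5 → ℝ) : FF (sc r a) = r ^ 60 * FF a :=
  FF_sc r hr a natDegree_DP_real

theorem D3 : S_D3 := by
  obtain ⟨A, hA1, hA⟩ := box_bound (fun b => dis b) dis_cont 20
    (fun r _ b => dis_sc r b (natDegree_deriv (by norm_num) b))
  refine ⟨A, hA1, fun B a hB ha => ?_⟩
  have h := hA B a hB ha
  have h2 : ((dis a : ℤ) : ℝ) = dis (fun i => (a i : ℝ)) := map_dis (Int.castRingHom ℝ) a
  rw [h2]
  exact h

end Run7.h465.GT
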