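import Pool.Agent.Run7.h929.G3.Iface
import Pool.Agent.Run7.h465.GT.Scale

/-!
# Piece node: reduction with exactly one node
-/

set_option autoImplicit false

namespace Run7.h465.GT

open Polynomial Run7.h929.G2 Run7.h929.G3

/-- for monic `f` the formal degree of the second polynomial does not matter -/
theorem res_deg {R : Type} [CommRing R] (f g : R[X]) (m n k : ℕ) (hf : f.Monic)
    (hm : f.natDegree = m) (hn : g.natDegree ≤ n) (hk : g.natDegree ≤ k) :
    resultant f g m n = resultant f g m k := by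
  have h : ∀ l : ℕ, g.natDegree ≤ l → resultant f g m l = resultant f g m g.natDegree := by
    intro l hl
    obtain ⟨c, rfl⟩ := Nat.exists_eq_add_of_le hl
    rw [resultant_add_right_deg _ _ _ _ _ le_rfl, ← hm, coeff_natDegree, hf.leadingCoeff, one_pow,
      one_mul]
  rw [h n hn, h k hk]

/-- multiplicativity in the second argument for monic `f` -/
theorem res_mul {R : Type} [CommRing R] (f g h : R[X]) (m n k l : ℕ) (hf : f.Monic)
    (hm : f.natDegree = m) (hg : g.natDegree ≤ n) (hh : h.natDegree ≤ k) (hgh : n + k = l) :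
    resultant f (g * h) m l = resultant f g m n * resultant f h m k := by
  rw [res_deg f g m n g.natDegree hf hm hg le_rfl, res_deg f h m k h.natDegree hf hm hh le_rfl,
    ← resultant_mul_right f g h m hm.le]
  have h1 : (g * h).natDegree ≤ g.natDegree + h.natDegree := natDegree_mul_le
  exact res_deg f (g * h) m l _ hf hm (by omega) h1

/-- the cofactor of the derivative -/
noncomputable def cof {R : Type} [CommRing R] (r : R) (g : R[X]) : R[X] :=
  (X - C r) * derivative g + g * C 2

theorem deriv_sq {R : Type} [CommRing R] (r : R) (g : R[X]) :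
    derivative ((X - C r) ^ 2 * g) = (X - C r) * cof r g := by
  unfold cof
  simp only [derivative_mul, derivative_X_sub_C, derivative_pow]
  norm_num
  ring

theorem eval_cof {R : Type} [CommRing R] (r : R) (g : R[X]) : (cof r g).eval r = 2 * g.eval r := by
  unfold cof
  simp
  ring

theorem natDegree_cof {R : Type} [CommRing R] (r : R) (g : R[X]) (hd : g.natDegree = 3) :
    (cof r g).natDegree ≤ 3 := by
  have h1 : (derivative g).natDegree ≤ 2 := (natDegree_derivative_le g).trans (by omega)
  have h2 : ((X - C r) * derivative g).natDegree ≤ 3 :=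
    natDegree_mul_le.trans (by have := natDegree_X_sub_C_le r; omega)
  have h3 : (g * C 2).natDegree ≤ 3 := (natDegree_mul_C_le g 2).trans hd.le
  exact (natDegree_add_le _ _).trans (max_le h2 h3)

theorem res_g {K : Type} [Field K] (r : K) (g : K[X]) (hg : g.Monic) (hd : g.natDegree = 3) :
    resultant g (cof r g) 3 3 = (-1) ^ 3 * g.eval r * resultant g (derivative g) 3 2 := by
  have h1 : (derivative g).natDegree ≤ 2 := (natDegree_derivative_le g).trans (by omega)
  unfold cof
  rw [resultant_add_mul_right _ _ _ _ _ (by rw [natDegree_C]) hd.le,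
    res_mul g (X - C r) (derivative g) 3 1 2 3 hg hd (natDegree_X_sub_C_le r) h1 rfl,
    resultant_X_sub_C_right _ _ _ hd.le]

theorem res_f {K : Type} [Field K] (r : K) (g : K[X]) (hg : g.Monic) (hd : g.natDegree = 3) :
    resultant ((X - C r) ^ 2 * g) (cof r g) 5 3 =
      (2 * g.eval r) ^ 2 * ((-1) ^ 3 * g.eval r * resultant g (derivative g) 3 2) := by
  have h1 : ((X - C r) ^ 2).natDegree = 2 := by
    rw [natDegree_pow, natDegree_X_sub_C]
  have h := resultant_mul_left ((X - C r) ^ 2) g (cof r g) 3 (natDegree_cof r g hd)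
  rw [h1, hd, resultant_X_sub_C_pow_left _ _ _ _ (natDegree_cof r g hd), eval_cof,
    res_g r g hg hd] at h
  exact h

/-- `x = -y` -/
def MN (R : Type) [CommRing R] (x y : R) : Prop := x = -y

theorem MN_iff {R : Type} [CommRing R] (x y : R[X]) : MN R[X] x y ↔ x = -y := Iff.rfl

theorem res_mulM {R : Type} [CommRing R] (f g h : R[X]) (m n k l : ℕ) (hf : f.Monic)
    (hm : f.natDegree = m) (hg : g.natDegree ≤ n) (hh : h.natDegree ≤ k) (hgh : n + k = l) :
    MM R (resultant f (g * h) m l) (resultant f g m n) (resultant f h m k) :=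
  res_mul f g h m n k l hf hm hg hh hgh

theorem res_linM {R : Type} [CommRing R] (f : R[X]) (hd : f.natDegree = 5) (r : R) :
    MN R (resultant f (X - C r) 5 1) (eval r f) := by
  unfold MN
  rw [resultant_X_sub_C_right _ _ _ hd.le]
  ring

theorem map_lin {K : Type} [Field K] (r : K) (G : K[X]) :
    ((X - C r) * G).map (C : K →+* K[X]) = (X - C (C r)) * G.map C := by
  rw [Polynomial.map_mul, Polynomial.map_sub, map_X, map_C]

theorem res_hat {K : Type} [Field K] (F : K[X][X]) (hF : F.Monic) (hFd : F.natDegree = 5) (r : K)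
    (G : K[X]) (hG : G.natDegree ≤ 3) (x y z : K[X])
    (hx : resultant F (((X - C r) * G).map C) 5 4 = x) (hy : eval (C r) F = y)
    (hz : resultant F (G.map C) 5 3 = z) : x = -y * z := by
  have h1 := res_mulM F (X - C (C r)) (G.map C) 5 1 3 4 hF hFd (natDegree_X_sub_C_le _)
    (natDegree_map_le.trans hG) rfl
  have h2 := res_linM F hFd (C r)
  rw [map_lin] at hx
  rw [hx, hz] at h1
  rw [hy] at h2
  generalize resultant F (X - C (C r)) 5 1 = w at h1 h2
  rw [MM_iff] at h1
  rw [MN_iff] at h2
  rw [h1, h2]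

theorem dis0_aux {K : Type} [Field K] (P W : K[X]) (x : K)
    (h : P = - (X + C (0 - x)) * W) : (derivative P).eval x = - W.eval x := by
  rw [h]
  simp

theorem vec_eval {K : Type} [Field K] (a : Fin 5 → K) :
    (fun i => (evalRingHom (a 0))
      ((![X, C (a 1), C (a 2), C (a 3), C (a 4)] : Fin 5 → K[X]) i)) = a := by
  funext i
  fin_cases i <;> simp

theorem map_C_eval {K : Type} [Field K] (x : K) (g : K[X]) :
    (g.map C).map (evalRingHom x) = g := by
  rw [map_map]
  have : (evalRingHom x).comp C = RingHom.id K := by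
    ext x
    simp
  rw [this, map_id]

theorem W_eval {K : Type} [Field K] (a : Fin 5 → K) (r : K) (g : K[X]) (hg : g.Monic)
    (hd : g.natDegree = 3) (hf : quin a = (X - C r) ^ 2 * g) (W : K[X])
    (hW : resultant (quin (![X, C (a 1), C (a 2), C (a 3), C (a 4)] : Fin 5 → K[X]))
      ((cof r g).map C) 5 3 = W) :
    W.eval (a 0) =
      (2 * g.eval r) ^ 2 * ((-1) ^ 3 * g.eval r * resultant g (derivative g) 3 2) := by
  have h1 := map_quin (evalRingHom (a 0))
    (![X, C (a 1), C (a 2), C (a 3), C (a 4)] : Fin 5 → K[X])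
  rw [vec_eval] at h1
  have h4 := resultant_map_map (quin (![X, C (a 1), C (a 2), C (a 3), C (a 4)] : Fin 5 → K[X]))
    ((cof r g).map C) 5 3 (evalRingHom (a 0))
  rw [hW, h1, map_C_eval, hf, res_f r g hg hd] at h4
  exact h4.symm

theorem DP_W {K : Type} [Field K] (a : Fin 5 → K) (r : K) (g : K[X])
    (hd : g.natDegree = 3) (hf : quin a = (X - C r) ^ 2 * g) (P W : K[X]) (hP : DP a = P)
    (hW : resultant (quin (![X, C (a 1), C (a 2), C (a 3), C (a 4)] : Fin 5 → K[X]))
      ((cof r g).map C) 5 3 = W) : P = - (X + C (0 - a 0)) * W := by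
  have h0 : resultant (quin (![X, C (a 1), C (a 2), C (a 3), C (a 4)] : Fin 5 → K[X]))
      (derivative (quin (![X, C (a 1), C (a 2), C (a 3), C (a 4)] : Fin 5 → K[X]))) 5 4
      = DP a := rfl
  have hr : fv a r = 0 := by
    rw [← eval_quin, hf]
    simp
  rw [deriv_DPv, hf, deriv_sq, hP] at h0
  have hy := eval_DPv a r
  rw [hr] at hy
  exact res_hat (quin (![X, C (a 1), C (a 2), C (a 3), C (a 4)] : Fin 5 → K[X]))
    (monic_quin _) (natDegree_quin _) r (cof r g) (natDegree_cof r g hd) _ _ _ h0 hy hW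

theorem dis0_eq {K : Type} [Field K] (a : Fin 5 → K) (r : K) (g : K[X]) (hg : g.Monic)
    (hd : g.natDegree = 3) (hf : quin a = (X - C r) ^ 2 * g) :
    dis0 a = - ((2 * g.eval r) ^ 2 * ((-1) ^ 3 * g.eval r * resultant g (derivative g) 3 2)) := by
  unfold dis0
  rw [dis0_aux _ _ _ (DP_W a r g hd hf _ _ rfl rfl), W_eval a r g hg hd hf _ rfl]

/-- a double root gives the factor `(X - r)²` -/
theorem sq_dvd {K : Type} [Field K] (a : Fin 5 → K) (r : K) (h1 : (quin a).eval r = 0)
    (h2 : (derivative (quin a)).eval r = 0) :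
    ∃ g : K[X], g.Monic ∧ g.natDegree = 3 ∧ quin a = (X - C r) ^ 2 * g := by
  obtain ⟨k, hk⟩ := dvd_iff_isRoot.mpr h1
  have h3 : k.eval r = 0 := by
    rw [hk] at h2
    simpa using h2
  obtain ⟨g, hg⟩ := dvd_iff_isRoot.mpr h3
  have h4 : quin a = (X - C r) ^ 2 * g := by
    rw [hk, hg]
    ring
  have hm : ((X - C r) ^ 2).Monic := (monic_X_sub_C r).pow 2
  have hgm : g.Monic := by
    have := monic_quin a
    rw [h4] at this
    exact hm.of_mul_monic_left this
  refine ⟨g, hgm, ?_, h4⟩
  have h5 := natDegree_quin a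
  rw [h4, hm.natDegree_mul hgm, natDegree_pow, natDegree_X_sub_C] at h5
  omega

theorem good {K : Type} [Field K] (a : Fin 5 → K) (r : K) (g : K[X]) (hg : g.Monic)
    (hd : g.natDegree = 3) (hf : quin a = (X - C r) ^ 2 * g) (h0 : dis0 a ≠ 0) :
    g.eval r ≠ 0 ∧ g.Separable := by
  rw [dis0_eq a r g hg hd hf] at h0
  refine ⟨fun h => h0 (by rw [h]; ring), ?_⟩
  have h1 : resultant g (derivative g) 3 2 ≠ 0 := fun h => h0 (by rw [h]; ring)
  have h2 : (derivative g).natDegree ≤ 2 := (natDegree_derivative_le g).trans (by omega)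
  rw [res_deg g (derivative g) 3 2 (derivative g).natDegree hg hd h2 le_rfl] at h1
  have h3 := (isUnit_resultant_iff_isCoprime (g := derivative g) hg).mp (by
    rw [hd]
    exact h1.isUnit)
  exact h3

theorem map_dis0 {K L : Type} [Field K] [Field L] (φ : K →+* L) (a : Fin 5 → K) :
    dis0 (fun i => φ (a i)) = φ (dis0 a) := by
  unfold dis0
  rw [← DP_map, derivative_map, eval_map, eval₂_at_apply]

theorem exists_irred {F : Type} [Field F] (a : Fin 5 → F) (h : dis a = 0) :
    ∃ p : F[X], p.Monic ∧ Irreducible p ∧ p ∣ quin a ∧ p ∣ derivative (quin a) := by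
  classical
  have h1 : ¬ IsCoprime (quin a) (derivative (quin a)) := by
    intro hc
    have h2 := (isUnit_resultant_iff_isCoprime (monic_quin a)).mpr hc
    apply h2.ne_zero
    rw [natDegree_quin, ← res_deg (quin a) (derivative (quin a)) 5 4 _ (monic_quin a)
      (natDegree_quin a) (natDegree_deriv_le a) le_rfl]
    exact h
  have h2 : ¬ IsUnit (EuclideanDomain.gcd (quin a) (derivative (quin a))) := by
    rwa [EuclideanDomain.gcd_isUnit_iff]
  obtain ⟨p, hp, hi, hd⟩ := exists_monic_irreducible_factor _ h2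
  exact ⟨p, hp, hi, hd.trans (EuclideanDomain.gcd_dvd_left _ _),
    hd.trans (EuclideanDomain.gcd_dvd_right _ _)⟩

/-- over an algebraically closed field the double root is unique -/
theorem uniq {K : Type} [Field K] (h2 : (2 : K) ≠ 0) (a : Fin 5 → K) (h0 : dis0 a ≠ 0) (ρ : K)
    (hρ : (quin a).eval ρ = 0) (hρ' : (derivative (quin a)).eval ρ = 0) :
    (∀ σ : K, (quin a).eval σ = 0 → (derivative (quin a)).eval σ = 0 → σ = ρ) ∧
    ¬ (X - C ρ) ^ 2 ∣ derivative (quin a) := by
  obtain ⟨g, hg, hd, hf⟩ := sq_dvd a ρ hρ hρ'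
  obtain ⟨hgr, hs⟩ := good a ρ g hg hd hf h0
  constructor
  · intro σ hσ hσ'
    by_contra hne
    have hne' : σ - ρ ≠ 0 := sub_ne_zero.mpr hne
    have e1 : g.eval σ = 0 := by
      rw [hf] at hσ
      simp only [eval_mul, eval_pow, eval_sub, eval_X, eval_C] at hσ
      rcases mul_eq_zero.mp hσ with h | h
      · exact absurd h (pow_ne_zero _ hne')
      · exact h
    have e2 : (derivative g).eval σ = 0 := by
      rw [hf, deriv_sq] at hσ'
      unfold cof at hσ'
      simp only [eval_mul, eval_add, eval_sub, eval_X, eval_C, e1, zero_mul, add_zero] at hσ'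
      rcases mul_eq_zero.mp hσ' with h | h
      · exact absurd h hne'
      · rcases mul_eq_zero.mp h with h | h
        · exact absurd h hne'
        · exact h
    obtain ⟨u, w, huw⟩ := hs
    have := congrArg (eval σ) huw
    simp [e1, e2] at this
  · rintro ⟨k, hk⟩
    rw [hf, deriv_sq, pow_two, mul_assoc] at hk
    have h3 := mul_left_cancel₀ (X_sub_C_ne_zero ρ) hk
    have h4 := congrArg (eval ρ) h3
    rw [eval_cof] at h4
    simp at h4
    rcases h4 with h | h
    · exact h2 h
    · exact hgr h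

theorem node : S_node := by
  intro F _ a h2 hd0 h0
  obtain ⟨p, hp, hi, hpf, hpd⟩ := exists_irred a hd0
  let K := AlgebraicClosure F
  let φ : F →+* K := algebraMap F K
  have hφ : Function.Injective φ := φ.injective
  have hf : (quin a).map φ = quin (fun i => φ (a i)) := map_quin φ a
  have hfd : (derivative (quin a)).map φ = derivative (quin (fun i => φ (a i))) := by
    rw [← derivative_map, hf]
  have hpdeg : (p.map φ).natDegree = p.natDegree := natDegree_map_eq_of_injective hφ p
  have hp0 : p.natDegree ≠ 0 := fun h => hi.not_isUnit (by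
    rw [hp.natDegree_eq_zero.mp h]
    exact isUnit_one)
  have hpm : (p.map φ).Monic := hp.map φ
  obtain ⟨ρ, hρ⟩ := IsAlgClosed.exists_root (p.map φ) (by
    rw [degree_eq_natDegree hpm.ne_zero, hpdeg]
    exact_mod_cast hp0)
  have root_f : ∀ σ : K, (p.map φ).eval σ = 0 → (quin (fun i => φ (a i))).eval σ = 0 ∧
      (derivative (quin (fun i => φ (a i)))).eval σ = 0 := by
    intro σ hσ
    constructor
    · rw [← hf]
      exact eval_eq_zero_of_dvd_of_eval_eq_zero (Polynomial.map_dvd φ hpf) hσ
    · rw [← hfd]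
      exact eval_eq_zero_of_dvd_of_eval_eq_zero (Polynomial.map_dvd φ hpd) hσ
  have h2K : (2 : K) ≠ 0 := by
    intro h
    apply h2
    apply hφ
    rw [map_ofNat, map_zero]
    exact h
  have h0K : dis0 (fun i => φ (a i)) ≠ 0 := by
    rw [map_dis0]
    intro h
    exact h0 (hφ (by rw [h, map_zero]))
  obtain ⟨huniq, hsq⟩ := uniq h2K _ h0K ρ (root_f ρ hρ).1 (root_f ρ hρ).2
  have hroots : (p.map φ).roots = Multiset.replicate p.natDegree ρ := by
    rw [Multiset.eq_replicate]
    constructor
    · rw [← hpdeg]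
      exact ((IsAlgClosed.splits (p.map φ)).natDegree_eq_card_roots).symm
    · intro σ hσ
      have h := (mem_roots hpm.ne_zero).mp hσ
      exact huniq σ (root_f σ h).1 (root_f σ h).2
  have hpe : p.map φ = (X - C ρ) ^ p.natDegree := by
    have h := (IsAlgClosed.splits (p.map φ)).eq_prod_roots_of_monic hpm
    rw [hroots, Multiset.map_replicate, Multiset.prod_replicate] at h
    exact h
  have hd1 : p.natDegree = 1 := by
    by_contra hne
    apply hsq
    rw [← hfd]
    have h : (X - C ρ) ^ 2 ∣ p.map φ := by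
      rw [hpe]
      exact pow_dvd_pow _ (by omega)
    exact h.trans (Polynomial.map_dvd φ hpd)
  have hpx : p = X - C (-p.coeff 0) := by
    have h := hp.eq_X_add_C hd1
    rw [h]
    simp
  have hr : ∀ q : F[X], p ∣ q → q.eval (-p.coeff 0) = 0 := by
    intro q hq
    rw [hpx] at hq
    exact dvd_iff_isRoot.mp hq
  obtain ⟨g, hg, hgd, hfg⟩ := sq_dvd a (-p.coeff 0) (hr _ hpf) (hr _ hpd)
  obtain ⟨hgr, hs⟩ := good a _ g hg hgd hfg h0
  exact ⟨-p.coeff 0, g, hg, hgd, hfg, hgr, hs⟩

end Run7.h465.GT
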